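import Mathlib

/-!
# Antimagic labellings: basic tools (disjoint unions with copies of `P_3`)
-/

namespace Pool.Agent.R9.AM

open Finset

/-- `t P_3`: the disjoint union of `t` copies of the path with three vertices. -/
def P3s (t : ℕ) : SimpleGraph (Fin t × Fin 3) where
  Adj x y := x.1 = y.1 ∧ (SimpleGraph.pathGraph 3).Adj x.2 y.2
  symm := ⟨fun _ _ h => ⟨h.1.symm, h.2.symm⟩⟩
  loopless := ⟨fun _ h => (SimpleGraph.pathGraph 3).irrefl h.2⟩

/-- `f` is an antimagic labelling of `G`: the edges are labelled bijectively by `1, …, m` and the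
vertex sums are distinct. -/
def IsAntimagicLabelling {V : Type} (G : SimpleGraph V) (f : Sym2 V → ℕ) : Prop :=
  Set.BijOn f G.edgeSet (Set.Icc 1 G.edgeSet.ncard) ∧
    Function.Injective fun v => ∑ᶠ e ∈ G.incidenceSet v, f e

/-- `G` is antimagic. -/
def IsAntimagic {V : Type} (G : SimpleGraph V) : Prop := ∃ f, IsAntimagicLabelling G f

/-- An enumeration of the edges of `G`. -/
structure EdgeEnum {V : Type} (G : SimpleGraph V) (E : Type) where
  ed : E → Sym2 V
  inj : Function.Injective ed
  range_eq : Set.range ed = G.edgeSet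

namespace EdgeEnum

variable {V W E F : Type} {G : SimpleGraph V} {H : SimpleGraph W}

lemma ncard_edgeSet [Fintype E] (a : EdgeEnum G E) : G.edgeSet.ncard = Fintype.card E := by
  rw [← a.range_eq, ← Set.image_univ, Set.ncard_image_of_injective _ a.inj, Set.ncard_univ,
    Nat.card_eq_fintype_card]

lemma vertex_sum [Fintype E] [DecidableEq V] (a : EdgeEnum G E) (f : Sym2 V → ℕ) (v : V) :
    ∑ᶠ e ∈ G.incidenceSet v, f e = ∑ x, if v ∈ a.ed x then f (a.ed x) else 0 := by
  have h : G.incidenceSet v = a.ed '' {x | v ∈ a.ed x} := by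
    ext e
    rw [SimpleGraph.incidenceSet, Set.mem_sep_iff, ← a.range_eq]
    constructor
    · rintro ⟨⟨x, rfl⟩, hv⟩
      exact ⟨x, hv, rfl⟩
    · rintro ⟨x, hx, rfl⟩
      exact ⟨⟨x, rfl⟩, hx⟩
  rw [h, finsum_mem_image a.inj.injOn]
  rw [← Finset.sum_filter]
  rw [← finsum_mem_coe_finset]
  congr 1
  ext x
  simp

lemma isAntimagic_iff [Fintype E] [DecidableEq V] (a : EdgeEnum G E) :
    IsAntimagic G ↔ ∃ g : E → ℕ, Set.BijOn g Set.univ (Set.Icc 1 (Fintype.card E)) ∧
      Function.Injective fun v => ∑ x, if v ∈ a.ed x then g x else 0 := by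
  constructor
  · rintro ⟨f, hf, hinj⟩
    refine ⟨f ∘ a.ed, ?_, ?_⟩
    · rw [a.ncard_edgeSet] at hf
      refine hf.comp ?_
      rw [← a.range_eq, ← Set.image_univ]
      exact a.inj.injOn.bijOn_image
    · simp only [a.vertex_sum f] at hinj
      exact hinj
  · rintro ⟨g, hg, hinj⟩
    refine ⟨Function.extend a.ed g 0, ?_, ?_⟩
    · rw [a.ncard_edgeSet, ← a.range_eq, ← Set.image_univ]
      refine ⟨?_, ?_, ?_⟩
      · rintro _ ⟨x, -, rfl⟩
        rw [a.inj.extend_apply]
        exact hg.mapsTo (Set.mem_univ _)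
      · rintro _ ⟨x, -, rfl⟩ _ ⟨y, -, rfl⟩ h
        rw [a.inj.extend_apply, a.inj.extend_apply] at h
        rw [hg.injOn (Set.mem_univ _) (Set.mem_univ _) h]
      · intro n hn
        obtain ⟨x, -, hx⟩ := hg.surjOn hn
        exact ⟨a.ed x, ⟨x, Set.mem_univ _, rfl⟩, by rw [a.inj.extend_apply]; exact hx⟩
    · simp only [a.vertex_sum, a.inj.extend_apply]
      exact hinj

/-- Enumeration of the edges of a disjoint union. -/
def sum (a : EdgeEnum G E) (b : EdgeEnum H F) : EdgeEnum (G ⊕g H) (E ⊕ F) where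
  ed := Sum.elim (fun x => (a.ed x).map Sum.inl) (fun y => (b.ed y).map Sum.inr)
  inj := by
    rintro (x | x) (y | y) h
    · exact congrArg _ (a.inj (Sym2.map.injective Sum.inl_injective h))
    · exfalso
      simp only [Sum.elim_inl, Sum.elim_inr] at h
      induction hx : a.ed x with
      | h p q =>
        have : (Sum.inl p : V ⊕ W) ∈ (a.ed x).map Sum.inl := by
          rw [hx]; simp
        rw [h, Sym2.mem_map] at this
        obtain ⟨w, -, hw⟩ := this
        exact Sum.inr_ne_inl hw
    · exfalso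
      simp only [Sum.elim_inl, Sum.elim_inr] at h
      induction hx : a.ed y with
      | h p q =>
        have : (Sum.inl p : V ⊕ W) ∈ (a.ed y).map Sum.inl := by
          rw [hx]; simp
        rw [← h, Sym2.mem_map] at this
        obtain ⟨w, -, hw⟩ := this
        exact Sum.inr_ne_inl hw
    · exact congrArg _ (b.inj (Sym2.map.injective Sum.inr_injective h))
  range_eq := by
    ext e
    induction e with
    | h p q =>
      rw [SimpleGraph.mem_edgeSet]
      constructor
      · rintro ⟨x | x, hx⟩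
        · simp only [Sum.elim_inl] at hx
          have hx' : a.ed x ∈ G.edgeSet := by rw [← a.range_eq]; exact ⟨x, rfl⟩
          induction h : a.ed x with
          | h u v =>
            rw [h] at hx hx'
            rw [Sym2.map_mk, Sym2.eq_iff] at hx
            rw [SimpleGraph.mem_edgeSet] at hx'
            rcases hx with ⟨rfl, rfl⟩ | ⟨rfl, rfl⟩
            · simpa using hx'
            · simpa using hx'.symm
        · simp only [Sum.elim_inr] at hx
          have hx' : b.ed x ∈ H.edgeSet := by rw [← b.range_eq]; exact ⟨x, rfl⟩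
          induction h : b.ed x with
          | h u v =>
            rw [h] at hx hx'
            rw [Sym2.map_mk, Sym2.eq_iff] at hx
            rw [SimpleGraph.mem_edgeSet] at hx'
            rcases hx with ⟨rfl, rfl⟩ | ⟨rfl, rfl⟩
            · simpa using hx'
            · simpa using hx'.symm
      · intro h
        rcases p with p | p <;> rcases q with q | q
        · have h' : s(p, q) ∈ G.edgeSet := by simpa using h
          rw [← a.range_eq] at h'
          obtain ⟨x, hx⟩ := h'
          exact ⟨Sum.inl x, by simp [hx]⟩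
        · simp at h
        · simp at h
        · have h' : s(p, q) ∈ H.edgeSet := by simpa using h
          rw [← b.range_eq] at h'
          obtain ⟨x, hx⟩ := h'
          exact ⟨Sum.inr x, by simp [hx]⟩

lemma inl_mem_sum (a : EdgeEnum G E) (b : EdgeEnum H F) (v : V) (x : E) :
    Sum.inl v ∈ (a.sum b).ed (Sum.inl x) ↔ v ∈ a.ed x := by
  simp [sum, Sym2.mem_map]

lemma inl_mem_sum' (a : EdgeEnum G E) (b : EdgeEnum H F) (v : V) (y : F) :
    ¬ Sum.inl v ∈ (a.sum b).ed (Sum.inr y) := by
  simp [sum, Sym2.mem_map]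

lemma inr_mem_sum (a : EdgeEnum G E) (b : EdgeEnum H F) (w : W) (y : F) :
    Sum.inr w ∈ (a.sum b).ed (Sum.inr y) ↔ w ∈ b.ed y := by
  simp [sum, Sym2.mem_map]

lemma inr_mem_sum' (a : EdgeEnum G E) (b : EdgeEnum H F) (w : W) (x : E) :
    ¬ Sum.inr w ∈ (a.sum b).ed (Sum.inl x) := by
  simp [sum, Sym2.mem_map]

/-- The vertex sums in terms of an enumeration. -/
def vs [Fintype E] [DecidableEq V] (a : EdgeEnum G E) (g : E → ℕ) (v : V) : ℕ :=
  ∑ x, if v ∈ a.ed x then g x else 0

lemma isAntimagic_iff' [Fintype E] [DecidableEq V] (a : EdgeEnum G E) :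
    IsAntimagic G ↔ ∃ g : E → ℕ, Set.BijOn g Set.univ (Set.Icc 1 (Fintype.card E)) ∧
      Function.Injective (a.vs g) := a.isAntimagic_iff

lemma vs_sum_inl [Fintype E] [Fintype F] [DecidableEq V] [DecidableEq W] (a : EdgeEnum G E)
    (b : EdgeEnum H F) (g : E ⊕ F → ℕ) (v : V) :
    (a.sum b).vs g (Sum.inl v) = a.vs (fun x => g (Sum.inl x)) v := by
  unfold vs
  rw [Fintype.sum_sum_type]
  simp only [inl_mem_sum, inl_mem_sum', if_false, Finset.sum_const_zero, add_zero]

lemma vs_sum_inr [Fintype E] [Fintype F] [DecidableEq V] [DecidableEq W] (a : EdgeEnum G E)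
    (b : EdgeEnum H F) (g : E ⊕ F → ℕ) (w : W) :
    (a.sum b).vs g (Sum.inr w) = b.vs (fun y => g (Sum.inr y)) w := by
  unfold vs
  rw [Fintype.sum_sum_type]
  simp only [inr_mem_sum, inr_mem_sum', if_false, Finset.sum_const_zero, zero_add]

end EdgeEnum

/-! ## Copies of `P_3` -/

/-- The edges of `t P_3`. -/
def edP (t : ℕ) : EdgeEnum (P3s t) (Fin t × Bool) where
  ed p := if p.2 then s((p.1, 1), (p.1, 2)) else s((p.1, 0), (p.1, 1))
  inj := by
    rintro ⟨i, b⟩ ⟨j, c⟩ h
    cases b <;> cases c <;> simp at h ⊢ <;> exact h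
  range_eq := by
    ext e
    induction e with
    | h p q =>
      obtain ⟨i, x⟩ := p
      obtain ⟨j, y⟩ := q
      rw [SimpleGraph.mem_edgeSet]
      constructor
      · rintro ⟨⟨k, b⟩, h⟩
        cases b
        · simp only [Bool.false_eq_true, if_false, Sym2.eq_iff, Prod.mk.injEq] at h
          rcases h with ⟨⟨rfl, rfl⟩, rfl, rfl⟩ | ⟨⟨rfl, rfl⟩, rfl, rfl⟩
          · exact ⟨rfl, by simp [SimpleGraph.pathGraph_adj]⟩
          · exact ⟨rfl, by simp [SimpleGraph.pathGraph_adj]⟩
        · simp only [if_true, Sym2.eq_iff, Prod.mk.injEq] at h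
          rcases h with ⟨⟨rfl, rfl⟩, rfl, rfl⟩ | ⟨⟨rfl, rfl⟩, rfl, rfl⟩
          · exact ⟨rfl, by simp [SimpleGraph.pathGraph_adj]⟩
          · exact ⟨rfl, by simp [SimpleGraph.pathGraph_adj]⟩
      · rintro ⟨h1, h2⟩
        simp only at h1 h2
        subst h1
        rw [SimpleGraph.pathGraph_adj] at h2
        fin_cases x <;> fin_cases y <;> simp at h2
        · exact ⟨(i, false), by simp⟩
        · exact ⟨(i, false), by simp⟩
        · exact ⟨(i, true), by simp⟩
        · exact ⟨(i, true), by simp⟩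

lemma vs_edP0 (t : ℕ) (g : Fin t × Bool → ℕ) (i : Fin t) : (edP t).vs g (i, 0) = g (i, false) := by
  unfold EdgeEnum.vs
  rw [Fintype.sum_prod_type]
  rw [Finset.sum_eq_single i]
  · simp [edP]
  · intro j _ hj
    have : i ≠ j := fun h => hj h.symm
    simp [edP, this]
  · simp

lemma vs_edP1 (t : ℕ) (g : Fin t × Bool → ℕ) (i : Fin t) :
    (edP t).vs g (i, 1) = g (i, false) + g (i, true) := by
  unfold EdgeEnum.vs
  rw [Fintype.sum_prod_type]
  rw [Finset.sum_eq_single i]
  · simp [edP, add_comm]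
  · intro j _ hj
    have : i ≠ j := fun h => hj h.symm
    simp [edP, this]
  · simp

lemma vs_edP2 (t : ℕ) (g : Fin t × Bool → ℕ) (i : Fin t) : (edP t).vs g (i, 2) = g (i, true) := by
  unfold EdgeEnum.vs
  rw [Fintype.sum_prod_type]
  rw [Finset.sum_eq_single i]
  · simp [edP]
  · intro j _ hj
    have : i ≠ j := fun h => hj h.symm
    simp [edP, this]
  · simp

/-! ## Stars -/

/-- The edges of the star `K_{1,m}`. -/
def edS (m : ℕ) : EdgeEnum (completeBipartiteGraph Unit (Fin m)) (Fin m) where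
  ed j := s(Sum.inl (), Sum.inr j)
  inj := by
    intro i j h
    simpa using h
  range_eq := by
    ext e
    induction e with
    | h p q =>
      rw [SimpleGraph.mem_edgeSet]
      rcases p with p | p <;> rcases q with q | q <;> simp

lemma vs_edS_center (m : ℕ) (g : Fin m → ℕ) : (edS m).vs g (Sum.inl ()) = ∑ j, g j := by
  unfold EdgeEnum.vs
  simp [edS]

lemma vs_edS_leaf (m : ℕ) (g : Fin m → ℕ) (j : Fin m) : (edS m).vs g (Sum.inr j) = g j := by
  unfold EdgeEnum.vs
  simp [edS]

/-! ## Sums of distinct numbers -/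

/-- The sum of distinct natural numbers that are larger than `L`. -/
lemma sum_distinct (L : ℕ) (s : Finset ℕ) (hs : ∀ x ∈ s, L < x) :
    2 * (s.card * L) + s.card * (s.card + 1) ≤ 2 * ∑ x ∈ s, x := by
  induction s using Finset.induction_on_max with
  | empty => simp
  | insert a s ha ih =>
    have hna : a ∉ s := fun h => lt_irrefl _ (ha a h)
    rw [Finset.card_insert_of_notMem hna, Finset.sum_insert hna]
    have h1 := ih (fun x hx => hs x (Finset.mem_insert_of_mem hx))
    have h2 : L + s.card + 1 ≤ a := by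
      have h3 : s ⊆ Finset.Ioo L a := by
        intro x hx
        rw [Finset.mem_Ioo]
        exact ⟨hs x (Finset.mem_insert_of_mem hx), ha x hx⟩
      have h4 := Finset.card_le_card h3
      rw [Nat.card_Ioo] at h4
      have h5 := hs a (Finset.mem_insert_self _ _)
      omega
    nlinarith

lemma two_mul_sum_Icc (M : ℕ) : 2 * ∑ x ∈ Finset.Icc 1 M, x = M * (M + 1) := by
  induction M with
  | zero => simp
  | succ M ih =>
    rw [Finset.sum_Icc_succ_top (by omega), mul_add, ih]
    ring

/-! ## The counting bound -/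

/-- The counting bound.  `A` is a set of edges of `G` such that every other edge has a leaf
(outside `I`), and `I` is a set of vertices whose sums count the labels in `A` at most twice. -/
theorem counting {V E : Type} [Fintype E] [DecidableEq V] [DecidableEq E] {G : SimpleGraph V}
    (a : EdgeEnum G E) (t : ℕ) (A : Finset E) (I : Finset V) (n p : ℕ)
    (hn : I.card + t = A.card + n) (hp : Fintype.card E = A.card + p)
    (hpend : ∀ x ∉ A, ∃ v ∉ I, ∀ g : E → ℕ, a.vs g v = g x)
    (hpos : ∀ v ∈ I, ∀ g : E → ℕ, (∀ x, 0 < g x) → 0 < a.vs g v)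
    (hsum : ∀ g : E → ℕ, ∑ v ∈ I, a.vs g v ≤ 2 * ∑ x ∈ A, g x)
    (hanti : IsAntimagic (G ⊕g P3s t)) :
    2 * (n * (Fintype.card E + 2 * t)) + n * (n + 1) + p * (p + 1) ≤
      (Fintype.card E + 2 * t) * (Fintype.card E + 2 * t + 1) := by
  obtain ⟨g, hg, hinj⟩ := (EdgeEnum.isAntimagic_iff' (a.sum (edP t))).1 hanti
  set M := Fintype.card E + 2 * t with hM
  have hcard : Fintype.card (E ⊕ Fin t × Bool) = M := by
    rw [Fintype.card_sum, Fintype.card_prod, Fintype.card_fin, Fintype.card_bool, hM]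
    ring
  rw [hcard] at hg
  have hgpos : ∀ x, 0 < g x := fun x => (hg.mapsTo (Set.mem_univ x)).1
  have hgle : ∀ x, g x ≤ M := fun x => (hg.mapsTo (Set.mem_univ x)).2
  have hginj : Function.Injective g := fun x y h => hg.injOn (Set.mem_univ _) (Set.mem_univ _) h
  set c := (a.sum (edP t)).vs g with hc
  have hcl : ∀ v, c (Sum.inl v) = a.vs (fun x => g (Sum.inl x)) v := fun v =>
    EdgeEnum.vs_sum_inl a (edP t) g v
  have hc0 : ∀ i, c (Sum.inr (i, 0)) = g (Sum.inr (i, false)) := fun i => by
    rw [hc, EdgeEnum.vs_sum_inr, vs_edP0]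
  have hc1 : ∀ i, c (Sum.inr (i, 1)) = g (Sum.inr (i, false)) + g (Sum.inr (i, true)) := fun i => by
    rw [hc, EdgeEnum.vs_sum_inr, vs_edP1]
  have hc2 : ∀ i, c (Sum.inr (i, 2)) = g (Sum.inr (i, true)) := fun i => by
    rw [hc, EdgeEnum.vs_sum_inr, vs_edP2]
  -- the set of sums
  set φ : V ⊕ Fin t → V ⊕ Fin t × Fin 3 := Sum.map id (fun i => (i, 1)) with hφ
  have hφinj : Function.Injective φ := by
    apply Function.Injective.sumMap Function.injective_id
    intro i j h
    exact (Prod.mk.inj h).1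
  set J : Finset (V ⊕ Fin t) := I.disjSum Finset.univ with hJ
  set U : Finset ℕ := J.image (fun z => c (φ z)) with hU
  have hUinj : Function.Injective (fun z => c (φ z)) := hinj.comp hφinj
  have hUcard : U.card = I.card + t := by
    rw [hU, Finset.card_image_of_injective _ hUinj, hJ, Finset.card_disjSum, Finset.card_univ,
      Fintype.card_fin]
  have hUsum : ∑ u ∈ U, u = ∑ v ∈ I, c (Sum.inl v) +
      ∑ i : Fin t, (g (Sum.inr (i, false)) + g (Sum.inr (i, true))) := by
    rw [hU, Finset.sum_image (fun x _ y _ h => hUinj h), hJ, Finset.sum_disjSum]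
    congr 1
    refine Finset.sum_congr rfl fun i _ => ?_
    exact hc1 i
  set AS : Finset ℕ := A.image (fun x => g (Sum.inl x)) with hAS
  have hASinj : Function.Injective (fun x : E => g (Sum.inl x)) :=
    hginj.comp Sum.inl_injective
  have hAScard : AS.card = A.card := Finset.card_image_of_injective _ hASinj
  have hASsum : ∑ u ∈ AS, u = ∑ x ∈ A, g (Sum.inl x) := by
    rw [hAS, Finset.sum_image (fun x _ y _ h => hASinj h)]
  have hW : ∀ w ∈ U \ AS, M < w := by
    intro w hw
    rw [Finset.mem_sdiff, hU, Finset.mem_image] at hw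
    obtain ⟨⟨z, hz, rfl⟩, hwA⟩ := hw
    by_contra hle
    push Not at hle
    have hpos' : 0 < c (φ z) := by
      rcases z with v | i
      · rw [hJ, Finset.inl_mem_disjSum] at hz
        change 0 < c (Sum.inl v)
        rw [hcl]
        exact hpos v hz _ (fun x => hgpos _)
      · change 0 < c (Sum.inr (i, 1))
        rw [hc1]
        have := hgpos (Sum.inr (i, false))
        omega
    obtain ⟨x, -, hx⟩ := hg.surjOn (show c (φ z) ∈ Set.Icc 1 M from ⟨hpos', hle⟩)
    rcases x with x | ⟨i, b⟩
    · by_cases hxA : x ∈ A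
      · apply hwA
        rw [hAS, Finset.mem_image]
        exact ⟨x, hxA, hx⟩
      · obtain ⟨v, hv, hv'⟩ := hpend x hxA
        have h1 : c (Sum.inl v) = c (φ z) := by
          rw [hcl, hv', hx]
        have h2 := hinj h1
        rcases z with v' | i
        · rw [hJ, Finset.inl_mem_disjSum] at hz
          have h3 : (Sum.inl v : V ⊕ Fin t × Fin 3) = Sum.inl v' := h2
          rw [Sum.inl_injective h3] at hv
          exact hv hz
        · exact Sum.inl_ne_inr h2
    · cases b
      · have h1 : c (Sum.inr (i, 0)) = c (φ z) := by rw [hc0, hx]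
        have h2 := hinj h1
        rcases z with v' | i'
        · exact Sum.inr_ne_inl h2
        · have h3 := (Prod.mk.inj (Sum.inr_injective h2)).2
          exact absurd h3 (by decide)
      · have h1 : c (Sum.inr (i, 2)) = c (φ z) := by rw [hc2, hx]
        have h2 := hinj h1
        rcases z with v' | i'
        · exact Sum.inr_ne_inl h2
        · have h3 := (Prod.mk.inj (Sum.inr_injective h2)).2
          exact absurd h3 (by decide)
  have hWs := sum_distinct M (U \ AS) hW
  -- the cardinalities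
  have hc3 : (U \ AS).card + (U ∩ AS).card = U.card := Finset.card_sdiff_add_card_inter U AS
  have hc4 : (AS \ U).card + (AS ∩ U).card = AS.card := Finset.card_sdiff_add_card_inter AS U
  have hs3 : ∑ u ∈ U \ AS, u + ∑ u ∈ U ∩ AS, u = ∑ u ∈ U, u := by
    rw [← Finset.sum_sdiff (Finset.inter_subset_left : U ∩ AS ⊆ U), Finset.sdiff_inter_self_left]
  have hs4 : ∑ u ∈ AS \ U, u + ∑ u ∈ AS ∩ U, u = ∑ u ∈ AS, u := by
    rw [← Finset.sum_sdiff (Finset.inter_subset_left : AS ∩ U ⊆ AS), Finset.sdiff_inter_self_left]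
  have hs5 : ∑ u ∈ AS \ U, u ≤ (AS \ U).card * M := by
    refine Finset.sum_le_card_nsmul _ _ _ ?_
    intro u hu
    rw [Finset.mem_sdiff, hAS, Finset.mem_image] at hu
    obtain ⟨⟨x, -, rfl⟩, -⟩ := hu
    exact hgle _
  rw [Finset.inter_comm AS U] at hc4 hs4
  -- the total
  have htot : ∑ x ∈ A, g (Sum.inl x) + ∑ x ∈ Aᶜ, g (Sum.inl x) +
      ∑ i : Fin t, (g (Sum.inr (i, false)) + g (Sum.inr (i, true))) =
      ∑ x ∈ Finset.Icc 1 M, x := by
    have h1 : Finset.Icc 1 M = Finset.univ.image g := by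
      ext x
      rw [Finset.mem_Icc, Finset.mem_image]
      constructor
      · intro hx
        obtain ⟨y, -, hy⟩ := hg.surjOn (show x ∈ Set.Icc 1 M from hx)
        exact ⟨y, Finset.mem_univ _, hy⟩
      · rintro ⟨y, -, rfl⟩
        exact ⟨hgpos y, hgle y⟩
    rw [h1, Finset.sum_image (fun x _ y _ h => hginj h), Fintype.sum_sum_type,
      Finset.sum_add_sum_compl, Fintype.sum_prod_type]
    congr 1
    refine Finset.sum_congr rfl fun i _ => ?_
    rw [Fintype.sum_bool, add_comm]
  have htot2 := two_mul_sum_Icc M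
  have hpd : p * (p + 1) ≤ 2 * ∑ x ∈ Aᶜ, g (Sum.inl x) := by
    have h1 := sum_distinct 0 (Aᶜ.image (fun x => g (Sum.inl x))) (by
      intro x hx
      rw [Finset.mem_image] at hx
      obtain ⟨y, -, rfl⟩ := hx
      exact hgpos _)
    rw [Finset.sum_image (fun x _ y _ h => hASinj h), Finset.card_image_of_injective _ hASinj,
      Finset.card_compl, hp, Nat.add_sub_cancel_left, mul_zero, mul_zero, zero_add] at h1
    exact h1
  have hsumI := hsum (fun x => g (Sum.inl x))
  have hsumI' : ∑ v ∈ I, c (Sum.inl v) ≤ 2 * ∑ x ∈ A, g (Sum.inl x) := by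
    simpa only [hcl] using hsumI
  -- conclusion
  have hwn : (U \ AS).card = n + (AS \ U).card := by omega
  rw [hwn] at hWs
  rw [hUsum] at hs3
  rw [hASsum] at hs4
  generalize (AS \ U).card = r at *
  generalize ∑ u ∈ AS \ U, u = s1 at *
  generalize ∑ u ∈ U \ AS, u = s2 at *
  generalize ∑ u ∈ U ∩ AS, u = s3 at *
  generalize ∑ v ∈ I, c (Sum.inl v) = s4 at *
  generalize ∑ i : Fin t, (g (Sum.inr (i, false)) + g (Sum.inr (i, true))) = s5 at *
  generalize ∑ x ∈ A, g (Sum.inl x) = s6 at *
  generalize ∑ x ∈ Aᶜ, g (Sum.inl x) = s7 at *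
  generalize ∑ x ∈ Finset.Icc 1 M, x = s8 at *
  nlinarith [Nat.zero_le (r * n), Nat.zero_le (r * r)]

/-! ## Boundedness -/

/-- `tauSet G` is the set of all `t` such that `G ∪ t' P_3` is antimagic for all `t' ≤ t`. -/
def tauSet {V : Type} (G : SimpleGraph V) : Set ℕ :=
  {t | ∀ t' ≤ t, IsAntimagic (G ⊕g P3s t')}

lemma tauSet_bddAbove {V E : Type} [Fintype E] {G : SimpleGraph V} (a : EdgeEnum G E) :
    BddAbove (tauSet G) := by
  classical
  refine ⟨9 * Fintype.card E + 1, ?_⟩
  intro t ht
  by_contra hlt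
  push Not at hlt
  set e := Fintype.card E with he
  have h := counting a (9 * e + 2) Finset.univ ∅ (8 * e + 2) 0
    (by rw [Finset.card_empty, Finset.card_univ, ← he]; omega) (by rw [Finset.card_univ, add_zero])
    (fun x hx => absurd (Finset.mem_univ x) hx) (fun v hv => absurd hv (Finset.notMem_empty v))
    (fun g => by simp) (ht _ (by omega))
  rw [← he] at h
  nlinarith

lemma not_mem_tauSet {V : Type} {G : SimpleGraph V} {t : ℕ} (h : ¬ IsAntimagic (G ⊕g P3s t)) :
    ∀ s ∈ tauSet G, s < t := by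
  intro s hs
  by_contra hlt
  push Not at hlt
  exact h (hs t hlt)

end Pool.Agent.R9.AM
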