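import Mathlib

/-!
# Labelling the vertices of a union of cycles so that all edge sums are nearly equal
-/

namespace Pool.Agent.R9.CW

open Finset

/-- Partial sums. -/
def bs (w : ℕ → ℕ) (l : ℕ) : ℕ := ∑ i ∈ range l, w i

lemma bs_succ (w : ℕ → ℕ) (l : ℕ) : bs w (l + 1) = bs w l + w l := sum_range_succ w l

lemma bs_mono (w : ℕ → ℕ) {a b : ℕ} (h : a ≤ b) : bs w a ≤ bs w b :=
  sum_le_sum_of_subset (range_mono h)

lemma bs_inj (w : ℕ → ℕ) {a b x y : ℕ} (hx : x < w a) (hy : y < w b)
    (h : bs w a + x = bs w b + y) : a = b ∧ x = y := by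
  rcases lt_trichotomy a b with hab | hab | hab
  · have h1 := bs_mono w (Nat.succ_le_of_lt hab)
    rw [Nat.succ_eq_add_one, bs_succ] at h1
    omega
  · subst hab
    exact ⟨rfl, by omega⟩
  · have h1 := bs_mono w (Nat.succ_le_of_lt hab)
    rw [Nat.succ_eq_add_one, bs_succ] at h1
    omega

variable (s : ℕ → ℕ) (K : ℕ)

/-- Cycle `j` is odd and has level `l`. -/
def act (l j : ℕ) : Prop := s j % 2 = 1 ∧ l < s j / 2

instance (l j : ℕ) : Decidable (act s l j) := inferInstanceAs (Decidable (_ ∧ _))

/-- The number of odd cycles with level `l`. -/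
def kk (l : ℕ) : ℕ := ((range K).filter fun j => act s l j).card

/-- Rank from below. -/
def rA (l j : ℕ) : ℕ := ((range K).filter fun i => act s l i ∧ i < j).card

/-- Rank from above. -/
def rB (l j : ℕ) : ℕ := ((range K).filter fun i => act s l i ∧ j < i).card

/-- Rank among the odd cycles. -/
def rC (j : ℕ) : ℕ := ((range K).filter fun i => s i % 2 = 1 ∧ i < j).card

/-- The number of odd cycles. -/
def oo : ℕ := ((range K).filter fun j => s j % 2 = 1).card

/-- Half the length of an even cycle. -/
def we (j : ℕ) : ℕ := if s j % 2 = 1 then 0 else s j / 2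

/-- Half the length of an odd cycle. -/
def wo (j : ℕ) : ℕ := if s j % 2 = 1 then s j / 2 else 0

/-- The number of positions on one side used by the odd cycles. -/
def Qo : ℕ := bs (kk s K) (∑ j ∈ range K, s j)

/-- The number of positions on one side. -/
def Q : ℕ := Qo s K + bs (we s) K

lemma Qo_eq : Qo s K = ∑ j ∈ range K, wo s j := by
  unfold Qo bs kk
  simp only [card_filter]
  rw [sum_comm]
  refine sum_congr rfl fun j hj => ?_
  have hle : s j ≤ ∑ j ∈ range K, s j := single_le_sum (fun _ _ => Nat.zero_le _) hj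
  rw [← card_filter]
  unfold wo
  split_ifs with h
  · have : (filter (fun i => act s i j) (range (∑ j ∈ range K, s j))) = range (s j / 2) := by
      ext i
      rw [mem_filter, mem_range, mem_range]
      constructor
      · rintro ⟨-, -, h⟩; exact h
      · intro hi; exact ⟨by omega, h, hi⟩
    rw [this, card_range]
  · rw [card_eq_zero, filter_eq_empty_iff]
    intro i _ hi
    exact h hi.1

lemma total : 2 * Q s K + oo s K = ∑ j ∈ range K, s j := by
  unfold Q oo bs
  rw [Qo_eq, card_filter, mul_add, mul_sum, mul_sum, ← sum_add_distrib, ← sum_add_distrib]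
  refine sum_congr rfl fun j _ => ?_
  unfold wo we
  split_ifs <;> omega

lemma kk_le (l : ℕ) : kk s K l ≤ oo s K := by
  unfold kk oo
  apply card_le_card
  intro j hj
  rw [mem_filter] at hj ⊢
  exact ⟨hj.1, hj.2.1⟩

lemma rA_lt {l j : ℕ} (hj : j < K) (h : act s l j) : rA s K l j < kk s K l := by
  unfold rA kk
  apply card_lt_card
  rw [Finset.ssubset_iff_of_subset]
  · refine ⟨j, ?_, ?_⟩
    · rw [mem_filter, mem_range]; exact ⟨hj, h⟩
    · rw [mem_filter]
      rintro ⟨-, -, h⟩
      exact lt_irrefl _ h
  · intro i hi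
    rw [mem_filter] at hi ⊢
    exact ⟨hi.1, hi.2.1⟩

lemma rB_lt {l j : ℕ} (hj : j < K) (h : act s l j) : rB s K l j < kk s K l := by
  unfold rB kk
  apply card_lt_card
  rw [Finset.ssubset_iff_of_subset]
  · refine ⟨j, ?_, ?_⟩
    · rw [mem_filter, mem_range]; exact ⟨hj, h⟩
    · rw [mem_filter]
      rintro ⟨-, -, h⟩
      exact lt_irrefl _ h
  · intro i hi
    rw [mem_filter] at hi ⊢
    exact ⟨hi.1, hi.2.1⟩

lemma rC_lt {j : ℕ} (hj : j < K) (h : s j % 2 = 1) : rC s K j < oo s K := by
  unfold rC oo
  apply card_lt_card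
  rw [Finset.ssubset_iff_of_subset]
  · refine ⟨j, ?_, ?_⟩
    · rw [mem_filter, mem_range]; exact ⟨hj, h⟩
    · rw [mem_filter]
      rintro ⟨-, -, h⟩
      exact lt_irrefl _ h
  · intro i hi
    rw [mem_filter] at hi ⊢
    exact ⟨hi.1, hi.2.1⟩

lemma rA_mono {l j : ℕ} : rA s K (l + 1) j ≤ rA s K l j := by
  unfold rA
  apply card_le_card
  intro i hi
  rw [mem_filter] at hi ⊢
  exact ⟨hi.1, ⟨hi.2.1.1, lt_trans (Nat.lt_succ_self l) hi.2.1.2⟩, hi.2.2⟩

lemma rB_mono {l j : ℕ} : rB s K (l + 1) j ≤ rB s K l j := by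
  unfold rB
  apply card_le_card
  intro i hi
  rw [mem_filter] at hi ⊢
  exact ⟨hi.1, ⟨hi.2.1.1, lt_trans (Nat.lt_succ_self l) hi.2.1.2⟩, hi.2.2⟩

lemma rA_inj {l i j : ℕ} (hi : i < K) (hj : j < K) (hai : act s l i) (haj : act s l j)
    (h : rA s K l i = rA s K l j) : i = j := by
  have key : ∀ i j : ℕ, i < K → act s l i → i < j → rA s K l i < rA s K l j := by
    intro i j hi hai hij
    unfold rA
    apply card_lt_card
    rw [Finset.ssubset_iff_of_subset]
    · refine ⟨i, ?_, ?_⟩
      · rw [mem_filter, mem_range]; exact ⟨hi, hai, hij⟩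
      · rw [mem_filter]
        rintro ⟨-, -, h⟩
        exact lt_irrefl _ h
    · intro x hx
      rw [mem_filter] at hx ⊢
      exact ⟨hx.1, hx.2.1, hx.2.2.trans hij⟩
  rcases lt_trichotomy i j with hij | hij | hij
  · have := key i j hi hai hij; omega
  · exact hij
  · have := key j i hj haj hij; omega

lemma rB_inj {l i j : ℕ} (hi : i < K) (hj : j < K) (hai : act s l i) (haj : act s l j)
    (h : rB s K l i = rB s K l j) : i = j := by
  have key : ∀ i j : ℕ, j < K → act s l j → i < j → rB s K l j < rB s K l i := by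
    intro i j hj haj hij
    unfold rB
    apply card_lt_card
    rw [Finset.ssubset_iff_of_subset]
    · refine ⟨j, ?_, ?_⟩
      · rw [mem_filter, mem_range]; exact ⟨hj, haj, hij⟩
      · rw [mem_filter]
        rintro ⟨-, -, h⟩
        exact lt_irrefl _ h
    · intro x hx
      rw [mem_filter] at hx ⊢
      exact ⟨hx.1, hx.2.1, hij.trans hx.2.2⟩
  rcases lt_trichotomy i j with hij | hij | hij
  · have := key i j hj haj hij; omega
  · exact hij
  · have := key j i hi hai hij; omega

lemma rC_inj {i j : ℕ} (hi : i < K) (hj : j < K) (hai : s i % 2 = 1) (haj : s j % 2 = 1)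
    (h : rC s K i = rC s K j) : i = j := by
  have key : ∀ i j : ℕ, i < K → s i % 2 = 1 → i < j → rC s K i < rC s K j := by
    intro i j hi hai hij
    unfold rC
    apply card_lt_card
    rw [Finset.ssubset_iff_of_subset]
    · refine ⟨i, ?_, ?_⟩
      · rw [mem_filter, mem_range]; exact ⟨hi, hai, hij⟩
      · rw [mem_filter]
        rintro ⟨-, -, h⟩
        exact lt_irrefl _ h
    · intro x hx
      rw [mem_filter] at hx ⊢
      exact ⟨hx.1, hx.2.1, hx.2.2.trans hij⟩
  rcases lt_trichotomy i j with hij | hij | hij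
  · have := key i j hi hai hij; omega
  · exact hij
  · have := key j i hj haj hij; omega

lemma rA_le_rC (j : ℕ) : rA s K 0 j ≤ rC s K j := by
  unfold rA rC
  apply card_le_card
  intro i hi
  rw [mem_filter] at hi ⊢
  exact ⟨hi.1, hi.2.1.1, hi.2.2⟩

lemma rB_add_rC {j : ℕ} (hj : j < K) (h : s j % 2 = 1) : rB s K 0 j + rC s K j + 1 ≤ oo s K := by
  unfold rB rC oo
  have h1 : ((range K).filter fun i => act s 0 i ∧ j < i) ∪
      ((range K).filter fun i => s i % 2 = 1 ∧ i < j) ⊆
      ((range K).filter fun i => s i % 2 = 1).erase j := by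
    intro i hi
    rw [mem_union, mem_filter, mem_filter] at hi
    rw [mem_erase, mem_filter]
    rcases hi with hi | hi
    · exact ⟨by omega, hi.1, hi.2.1.1⟩
    · exact ⟨by omega, hi.1, hi.2.1⟩
  have h2 := card_le_card h1
  rw [card_union_of_disjoint, card_erase_of_mem (by rw [mem_filter, mem_range]; exact ⟨hj, h⟩)] at h2
  · have h3 : 0 < ((range K).filter fun i => s i % 2 = 1).card :=
      card_pos.2 ⟨j, by rw [mem_filter, mem_range]; exact ⟨hj, h⟩⟩
    omega
  · rw [disjoint_left]
    intro i hi hi'
    rw [mem_filter] at hi hi'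
    omega

/-- The level of a position (from the centre). -/
def lvl (j m : ℕ) : ℕ := if m ≤ s j / 2 then m - 1 else 2 * (s j / 2) - m

/-- The rank of a position in its level. -/
def rk (j m : ℕ) : ℕ :=
  if m ≤ s j / 2 then rA s K (m - 1) j else rB s K (2 * (s j / 2) - m) j

/-- The place on its side of position `m` of cycle `j`. -/
def L0 (j m : ℕ) : ℕ :=
  if s j % 2 = 1 then bs (kk s K) (lvl s j m) + rk s K j m
  else Qo s K + bs (we s) j + (if m < s j / 2 then m else s j - 1 - m)

/-- The label of position `m` of cycle `j`. -/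
def F (j m : ℕ) : ℤ :=
  if s j % 2 = 1 ∧ m = 0 then (Q s K : ℤ) + 1 + rC s K j
  else if m % 2 = 0 then (Q s K : ℤ) + oo s K + 1 + L0 s K j m
  else (Q s K : ℤ) - L0 s K j m

lemma act_lvl {j m : ℕ} (h : s j % 2 = 1) (hm0 : m ≠ 0) (hm : m < s j) :
    act s (lvl s j m) j := by
  refine ⟨h, ?_⟩
  unfold lvl
  split_ifs <;> omega

lemma rk_lt {j m : ℕ} (hj : j < K) (h : s j % 2 = 1) (hm0 : m ≠ 0) (hm : m < s j) :
    rk s K j m < kk s K (lvl s j m) := by
  have ha := act_lvl s h hm0 hm
  unfold rk lvl at *
  split_ifs at * with h1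
  · exact rA_lt s K hj ha
  · exact rB_lt s K hj ha

lemma L0_odd {j m : ℕ} (hj : j < K) (h : s j % 2 = 1) (hm0 : m ≠ 0) (hm : m < s j) :
    L0 s K j m < Qo s K := by
  have h1 := rk_lt s K hj h hm0 hm
  have h2 : s j ≤ ∑ j ∈ range K, s j :=
    single_le_sum (fun _ _ => Nat.zero_le _) (mem_range.2 hj)
  have h3 : lvl s j m + 1 ≤ ∑ j ∈ range K, s j := by
    have := (act_lvl s h hm0 hm).2
    omega
  have h4 := bs_mono (kk s K) h3
  rw [bs_succ] at h4
  unfold L0
  rw [if_pos h]
  unfold Qo
  omega

lemma L0_even {j m : ℕ} (hj : j < K) (h : s j % 2 ≠ 1) (hm : m < s j) :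
    Qo s K ≤ L0 s K j m ∧ L0 s K j m < Q s K ∧
      L0 s K j m - Qo s K - bs (we s) j < we s j := by
  have h1 := bs_mono (we s) (Nat.succ_le_of_lt hj)
  rw [Nat.succ_eq_add_one, bs_succ] at h1
  have h2 : we s j = s j / 2 := by unfold we; rw [if_neg h]
  unfold L0 Q
  rw [if_neg h]
  split_ifs <;> omega

lemma L0_lt {j m : ℕ} (hj : j < K) (hm : m < s j) (h : ¬ (s j % 2 = 1 ∧ m = 0)) :
    L0 s K j m < Q s K := by
  by_cases h1 : s j % 2 = 1
  · have := L0_odd s K hj h1 (fun h2 => h ⟨h1, h2⟩) hm
    unfold Q
    omega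
  · exact (L0_even s K hj h1 hm).2.1

/-- The labels lie between `1` and `n`. -/
lemma F_range {j m : ℕ} (hj : j < K) (hm : m < s j) :
    1 ≤ F s K j m ∧ F s K j m ≤ 2 * Q s K + oo s K := by
  unfold F
  split_ifs with h1 h2
  · have := rC_lt s K hj h1.1
    omega
  · have := L0_lt s K hj hm h1
    omega
  · have := L0_lt s K hj hm h1
    omega

/-- The labels are distinct. -/
lemma F_inj {j m j' m' : ℕ} (hj : j < K) (hm : m < s j) (hj' : j' < K) (hm' : m' < s j')
    (h : F s K j m = F s K j' m') : j = j' ∧ m = m' := by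
  -- equality of places
  have key : ¬ (s j % 2 = 1 ∧ m = 0) → ¬ (s j' % 2 = 1 ∧ m' = 0) → m % 2 = m' % 2 →
      L0 s K j m = L0 s K j' m' → j = j' ∧ m = m' := by
    intro h1 h2 hpar hL
    by_cases ho : s j % 2 = 1
    · have hm0 : m ≠ 0 := fun h3 => h1 ⟨ho, h3⟩
      have b1 := L0_odd s K hj ho hm0 hm
      by_cases ho' : s j' % 2 = 1
      · have hm0' : m' ≠ 0 := fun h3 => h2 ⟨ho', h3⟩
        have c1 := rk_lt s K hj ho hm0 hm
        have c2 := rk_lt s K hj' ho' hm0' hm'
        unfold L0 at hL
        rw [if_pos ho, if_pos ho'] at hL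
        obtain ⟨h3, h4⟩ := bs_inj _ c1 c2 hL
        have a1 := act_lvl s ho hm0 hm
        have a2 := act_lvl s ho' hm0' hm'
        rw [h3] at a1
        unfold lvl at h3 a1 a2
        unfold rk at h4
        split_ifs at h3 h4 a1 a2 with g1 g2 g2
        · have h5 : m = m' := by omega
          subst h5
          exact ⟨rA_inj s K hj hj' a1 a2 h4, rfl⟩
        · omega
        · omega
        · rw [h3] at h4
          have h5 := rB_inj s K hj hj' a1 a2 h4
          subst h5
          exact ⟨rfl, by omega⟩
      · have b2 := L0_even s K hj' ho' hm'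
        omega
    · have b1 := L0_even s K hj ho hm
      by_cases ho' : s j' % 2 = 1
      · have hm0' : m' ≠ 0 := fun h3 => h2 ⟨ho', h3⟩
        have b2 := L0_odd s K hj' ho' hm0' hm'
        omega
      · have b2 := L0_even s K hj' ho' hm'
        have h3 : bs (we s) j + (if m < s j / 2 then m else s j - 1 - m) =
            bs (we s) j' + (if m' < s j' / 2 then m' else s j' - 1 - m') := by
          unfold L0 at hL
          rw [if_neg ho, if_neg ho'] at hL
          omega
        have w1 : we s j = s j / 2 := by unfold we; rw [if_neg ho]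
        have w2 : we s j' = s j' / 2 := by unfold we; rw [if_neg ho']
        obtain ⟨h4, h5⟩ := bs_inj (we s) (by rw [w1]; split_ifs <;> omega)
          (by rw [w2]; split_ifs <;> omega) h3
        subst h4
        refine ⟨rfl, ?_⟩
        split_ifs at h5 <;> omega
  unfold F at h
  by_cases h1 : s j % 2 = 1 ∧ m = 0
  · rw [if_pos h1] at h
    have r1 := rC_lt s K hj h1.1
    by_cases h2 : s j' % 2 = 1 ∧ m' = 0
    · rw [if_pos h2] at h
      have h3 : rC s K j = rC s K j' := by omega
      exact ⟨rC_inj s K hj hj' h1.1 h2.1 h3, by rw [h1.2, h2.2]⟩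
    · rw [if_neg h2] at h
      have := L0_lt s K hj' hm' h2
      split_ifs at h <;> omega
  · rw [if_neg h1] at h
    have l1 := L0_lt s K hj hm h1
    by_cases h2 : s j' % 2 = 1 ∧ m' = 0
    · rw [if_pos h2] at h
      have r1 := rC_lt s K hj' h2.1
      split_ifs at h <;> omega
    · rw [if_neg h2] at h
      have l2 := L0_lt s K hj' hm' h2
      split_ifs at h with g1 g2 g2
      · exact key h1 h2 (by omega) (by omega)
      · omega
      · omega
      · exact key h1 h2 (by omega) (by omega)

/-- The sums of consecutive labels. -/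
lemma F_sum (hs : ∀ j < K, s j ≠ 1) {j m : ℕ} (hj : j < K) (hm : m < s j) :
    (2 * Q s K + oo s K : ℤ) + 1 - max (oo s K) 1 ≤ F s K j m + F s K j ((m + 1) % s j) ∧
    F s K j m + F s K j ((m + 1) % s j) ≤ (2 * Q s K + oo s K : ℤ) + 1 + max (oo s K) 1 := by
  have hs1 := hs j hj
  -- two non-central positions of different parity with nearby places
  have key : ∀ m', ¬ (s j % 2 = 1 ∧ m = 0) → ¬ (s j % 2 = 1 ∧ m' = 0) → m % 2 ≠ m' % 2 →
      L0 s K j m ≤ L0 s K j m' + max (oo s K) 1 → L0 s K j m' ≤ L0 s K j m + max (oo s K) 1 →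
      (2 * Q s K + oo s K : ℤ) + 1 - max (oo s K) 1 ≤ F s K j m + F s K j m' ∧
      F s K j m + F s K j m' ≤ (2 * Q s K + oo s K : ℤ) + 1 + max (oo s K) 1 := by
    intro m' h1 h2 hp hL1 hL2
    unfold F
    rw [if_neg h1, if_neg h2]
    split_ifs with g1 g2 g2
    · omega
    · push_cast; omega
    · push_cast; omega
    · omega
  by_cases ho : s j % 2 = 1
  · set q := s j / 2 with hq
    have hsq : s j = 2 * q + 1 := by omega
    have hq1 : 1 ≤ q := by omega
    by_cases hm0 : m = 0
    · subst hm0
      have h1 : (0 + 1) % s j = 1 := Nat.mod_eq_of_lt (by omega)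
      rw [h1]
      have e0 : F s K j 0 = (Q s K : ℤ) + 1 + rC s K j := by
        unfold F; rw [if_pos ⟨ho, rfl⟩]
      have e1 : F s K j 1 = (Q s K : ℤ) - rA s K 0 j := by
        unfold F L0 lvl rk
        rw [if_neg (by omega), if_neg (by norm_num), if_pos ho, if_pos (by omega),
          if_pos (by omega)]
        simp [bs]
      rw [e0, e1]
      have h2 := rA_le_rC s K j
      have h3 := rC_lt s K hj ho
      constructor
      · push_cast; omega
      · push_cast; omega
    · by_cases hml : m = 2 * q
      · have h1 : (m + 1) % s j = 0 := by rw [hml, ← hsq, Nat.mod_self]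
        rw [h1]
        have e0 : F s K j 0 = (Q s K : ℤ) + 1 + rC s K j := by
          unfold F; rw [if_pos ⟨ho, rfl⟩]
        have e1 : F s K j m = (Q s K : ℤ) + oo s K + 1 + rB s K 0 j := by
          unfold F L0 lvl rk
          rw [if_neg (by omega), if_pos (by omega), if_pos ho, if_neg (by omega),
            if_neg (by omega)]
          have : 2 * (s j / 2) - m = 0 := by omega
          rw [this]
          simp [bs]
        rw [e0, e1]
        have h2 := rB_add_rC s K hj ho
        constructor
        · push_cast; omega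
        · push_cast; omega
      · have h1 : (m + 1) % s j = m + 1 := Nat.mod_eq_of_lt (by omega)
        rw [h1]
        apply key (m + 1) (by omega) (by omega) (by omega)
        · -- L0 m ≤ L0 (m+1) + e
          unfold L0
          rw [if_pos ho, if_pos ho]
          unfold lvl rk
          rcases lt_trichotomy m q with hlt | heq | hgt
          · rw [if_pos (by omega), if_pos (by omega), if_pos (by omega), if_pos (by omega)]
            obtain ⟨l, rfl⟩ : ∃ l, m = l + 1 := ⟨m - 1, by omega⟩
            rw [Nat.add_sub_cancel, Nat.add_sub_cancel, bs_succ]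
            have a1 := rA_lt s K hj (show act s l j from ⟨ho, by omega⟩)
            omega
          · rw [if_pos (by omega), if_pos (by omega), if_neg (by omega), if_neg (by omega)]
            have e2 : 2 * (s j / 2) - (m + 1) = m - 1 := by omega
            rw [e2]
            have a1 := rA_lt s K hj (show act s (m - 1) j from ⟨ho, by omega⟩)
            have a2 := kk_le s K (m - 1)
            omega
          · rw [if_neg (by omega), if_neg (by omega), if_neg (by omega), if_neg (by omega)]
            obtain ⟨l, hl⟩ : ∃ l, 2 * (s j / 2) - m = l + 1 := ⟨2 * (s j / 2) - m - 1, by omega⟩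
            have hl' : 2 * (s j / 2) - (m + 1) = l := by omega
            rw [hl, hl', bs_succ]
            have a1 := rB_lt s K hj (show act s l j from ⟨ho, by omega⟩)
            have a2 := kk_le s K l
            have a3 := rB_mono s K (l := l) (j := j)
            omega
        · unfold L0
          rw [if_pos ho, if_pos ho]
          unfold lvl rk
          rcases lt_trichotomy m q with hlt | heq | hgt
          · rw [if_pos (by omega), if_pos (by omega), if_pos (by omega), if_pos (by omega)]
            obtain ⟨l, rfl⟩ : ∃ l, m = l + 1 := ⟨m - 1, by omega⟩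
            rw [Nat.add_sub_cancel, Nat.add_sub_cancel, bs_succ]
            have a2 := kk_le s K l
            have a3 := rA_mono s K (l := l) (j := j)
            omega
          · rw [if_neg (by omega), if_neg (by omega), if_pos (by omega), if_pos (by omega)]
            have e2 : 2 * (s j / 2) - (m + 1) = m - 1 := by omega
            rw [e2]
            have a1 := rB_lt s K hj (show act s (m - 1) j from ⟨ho, by omega⟩)
            have a2 := kk_le s K (m - 1)
            omega
          · rw [if_neg (by omega), if_neg (by omega), if_neg (by omega), if_neg (by omega)]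
            obtain ⟨l, hl⟩ : ∃ l, 2 * (s j / 2) - m = l + 1 := ⟨2 * (s j / 2) - m - 1, by omega⟩
            have hl' : 2 * (s j / 2) - (m + 1) = l := by omega
            rw [hl, hl', bs_succ]
            have a1 := rB_lt s K hj (show act s l j from ⟨ho, by omega⟩)
            omega
  · have hev : s j = 2 * (s j / 2) := by omega
    by_cases hml : m + 1 = s j
    · rw [hml, Nat.mod_self]
      apply key 0 (by omega) (by omega) (by omega)
      · unfold L0
        rw [if_neg ho, if_neg ho]
        split_ifs <;> omega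
      · unfold L0
        rw [if_neg ho, if_neg ho]
        split_ifs <;> omega
    · have h1 : (m + 1) % s j = m + 1 := Nat.mod_eq_of_lt (by omega)
      rw [h1]
      apply key (m + 1) (by omega) (by omega) (by omega)
      · unfold L0
        rw [if_neg ho, if_neg ho]
        split_ifs <;> omega
      · unfold L0
        rw [if_neg ho, if_neg ho]
        split_ifs <;> omega

end Pool.Agent.R9.CW
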